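import Pool.Agent.PrmH.TM

/-!
# MP_5082c5_lc: nondeterministic machines with many two-way input heads
-/

namespace Pool.Agent.Results.MP_5082c5_lc.MultiHead

open Pool.Agent.PrmH Pool.Agent.MP_5082c5_lc

/-- **Main result.** Let `M` be a nondeterministic Turing machine with any number of two-way
read-only input heads and any number of work tapes that accepts only binary representations of
primes. There is `c > 0` such that for all `n ≥ 3`, all `D`, `S` and every nonempty set `L` of
words of length `n` each of which has an accepting computation with at most `D` steps that move an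
input head and at most `S` visited work cells,
`c n³ ≤ D² (S + log n + log (π / #L))`, where `π` is the number of primes with `n` binary digits.
For `L` = all prime words of length `n` the last logarithm is `0`. -/
theorem result (M : NTM) (hM : ∀ u, Accepts M u → u ∈ PRIMES) :
    ∃ c : ℝ, 0 < c ∧ ∀ (n D S : ℕ) (L : Finset (List Bool)), 3 ≤ n → L.Nonempty →
      (∀ u ∈ L, u.length = n ∧ AcceptsIn M u D S) →
      c * (n : ℝ) ^ 3 ≤ (D : ℝ) ^ 2 * (S + Real.log n +
        Real.log (({u : List Bool | u ∈ PRIMES ∧ u.length = n}.ncard : ℝ) / L.card)) := by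
  obtain ⟨c, hc, h1⟩ := main_one M hM
  obtain ⟨C, hC, h2⟩ := prime_words
  refine ⟨c / (C + 1), by positivity, fun n D S L hn hL hLA => ?_⟩
  obtain ⟨P, hP, hPn, hPl⟩ := h2 n hn
  have hset : {u : List Bool | u ∈ PRIMES ∧ u.length = n} = (P : Set (List Bool)) := by
    ext u; simp [hP]
  rw [hset, Set.ncard_coe_finset]
  have h3 := h1 n D S L hn hL hLA
  have hLP : L ⊆ P := by
    intro u hu
    exact (hP u).2 ⟨hM u ⟨D, S, (hLA u hu).2⟩, (hLA u hu).1⟩
  have hL0 : (0 : ℝ) < L.card := by exact_mod_cast hL.card_pos
  have hP0 : (0 : ℝ) < P.card := by exact_mod_cast hPn.card_pos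
  have hPL : (L.card : ℝ) ≤ P.card := by exact_mod_cast Finset.card_le_card hLP
  have hlog : Real.log ((2 : ℝ) ^ n / L.card) =
      Real.log ((2 : ℝ) ^ n / P.card) + Real.log ((P.card : ℝ) / L.card) := by
    rw [← Real.log_mul (by positivity) (by positivity)]
    congr 1
    field_simp
  have hln : 0 ≤ Real.log n := Real.log_natCast_nonneg n
  have hX : 0 ≤ Real.log ((P.card : ℝ) / L.card) := by
    apply Real.log_nonneg
    rw [le_div_iff₀ hL0]
    linarith
  rw [hlog] at h3
  rw [div_mul_eq_mul_div, div_le_iff₀ (by positivity)]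
  refine h3.trans ?_
  rw [mul_assoc]
  apply mul_le_mul_of_nonneg_left _ (by positivity)
  have hS : (0 : ℝ) ≤ S := by positivity
  nlinarith [mul_nonneg hS hC.le, mul_nonneg hX hC.le]

end Pool.Agent.Results.MP_5082c5_lc.MultiHead
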