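import Pool.Agent.PrmO.Prod

/-!
# MP_5082c5_lc: nondeterministic machines with one two-way input head
-/

namespace Pool.Agent.Results.MP_5082c5_lc.OneHead

open Pool.Agent.PrmH Pool.Agent.MP_5082c5_lc

/-- **Main result.** Let `M` be a nondeterministic Turing machine with one two-way read-only input
head and any number of work tapes that accepts only binary representations of primes. There is
`c > 0` such that for all `n ≥ 3`, all `K` and every nonempty set `L` of words of length `n`, each
of which has an accepting computation in which at most `D` steps move the input head and at most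
`S` work cells are visited, with `D (S + 1) ≤ K` (`D` and `S` may depend on the word),
`c n² ≤ K + n log (π / #L)`, where `π` is the number of primes with `n` binary digits. So for all
but an exponentially small share of these primes every accepting computation has
`D (S + 1) ≥ (c / 2) n²`. -/
theorem result (M : NTM) (hk : M.k = 1) (hM : ∀ u, Accepts M u → u ∈ PRIMES) :
    ∃ c : ℝ, 0 < c ∧ ∀ (n K : ℕ) (L : Finset (List Bool)), 3 ≤ n → L.Nonempty →
      (∀ u ∈ L, u.length = n ∧ ∃ D S, AcceptsIn M u D S ∧ D * (S + 1) ≤ K) →
      c * (n : ℝ) ^ 2 ≤ K + n *
        Real.log (({u : List Bool | u ∈ PRIMES ∧ u.length = n}.ncard : ℝ) / L.card) :=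
  Pool.Agent.PrmO.main_prod M hk hM

end Pool.Agent.Results.MP_5082c5_lc.OneHead
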