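import Pool.Agent.PrbM.Fin

/-!
# MP_5082c5_lc: probabilistic machines
-/

namespace Pool.Agent.Results.MP_5082c5_lc.Probabilistic

open Pool.Agent.PrbM Pool.Agent.MP_5082c5_lc

/-- **Main result.** Let `M` be a probabilistic Turing machine with two-way read-only input. There
are `c > 0` and `n₀` such that for all `n ≥ n₀`, `0 < δ ≤ 1`, `α > 0`, `D` and `S`: if `M` accepts
the binary representations of the primes with `n` digits with probability at least `α` and all other
words of length `n` with probability at most `(1 - δ) α`, if on the primes with `n` digits the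
expected number of steps that move the input head, given acceptance, is at most `D`, and if all
accepting computations on them visit at most `S` work cells, then
`c δ² n² ≤ D (S + 1) + δ n log (1 / α)`. -/
theorem result (M : PTM) :
    ∃ (c : ℝ) (n₀ : ℕ), 0 < c ∧ ∀ (n : ℕ) (δ α D : ℝ) (S : ℕ), n₀ ≤ n → 0 < δ → δ ≤ 1 → 0 < α →
      (∀ w ∈ PRIMES, w.length = n → α ≤ accProb M w) →
      (∀ w, w ∉ PRIMES → w.length = n → accProb M w ≤ (1 - δ) * α) →
      (∀ w ∈ PRIMES, w.length = n → ∀ t, accMoves M w t ≤ D * accProb M w) →
      (∀ w ∈ PRIMES, w.length = n → ∀ r, (∃ t, M.halt (run M w r t).q = some true) →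
        (visited M w r).encard ≤ S) →
      c * δ ^ 2 * (n : ℝ) ^ 2 ≤ D * (S + 1) + δ * n * Real.log (1 / α) :=
  main M

end Pool.Agent.Results.MP_5082c5_lc.Probabilistic
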