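import Pool.Agent.PrbK.Fin

/-!
# MP_5082c5_lc: probabilistic machines with several input heads
-/

namespace Pool.Agent.Results.MP_5082c5_lc.ProbabilisticHeads

open Pool.Agent.PrbK Pool.Agent.MP_5082c5_lc

/-- **Main result.** Let `M` be a probabilistic Turing machine with any number of two-way read-only
input heads and `0 < δ ≤ 1`. There are `c > 0` and `n₀` such that for all `n ≥ n₀`, `α > 0`, `D` and
`S`: if `M` accepts the binary representations of the primes with `n` digits with probability at
least `α` and all other words of length `n` with probability at most `(1 - δ) α`, if on the primes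
with `n` digits the expected number of steps that move an input head, given acceptance, is at most
`D`, and if all accepting computations on them visit at most `S` work cells, then
`c n³ ≤ (D + n) log (2 + D / n) ((D + n) (S + log n) + n log (1 / α))`. -/
theorem result (M : PTM) (δ : ℝ) (hδ : 0 < δ) (hδ1 : δ ≤ 1) :
    ∃ (c : ℝ) (n₀ : ℕ), 0 < c ∧ ∀ (n : ℕ) (α D : ℝ) (S : ℕ), n₀ ≤ n → 0 < α →
      (∀ w ∈ PRIMES, w.length = n → α ≤ accProb M w) →
      (∀ w, w ∉ PRIMES → w.length = n → accProb M w ≤ (1 - δ) * α) →
      (∀ w ∈ PRIMES, w.length = n → ∀ t, accMoves M w t ≤ D * accProb M w) →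
      (∀ w ∈ PRIMES, w.length = n → ∀ r, (∃ t, M.halt (run M w r t).q = some true) →
        (visited M w r).encard ≤ S) →
      c * (n : ℝ) ^ 3 ≤ (D + n) * Real.log (2 + D / n) *
        ((D + n) * (S + Real.log n) + n * Real.log (1 / α)) :=
  main M δ hδ hδ1

end Pool.Agent.Results.MP_5082c5_lc.ProbabilisticHeads
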